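import Pool.Agent.J6H98.MK.Cor
import Pool.Agent.J6H98.MK.FIB

/-!
# Orbits on Markoff-type surfaces modulo `p ^ 2` above a maximal hyperbolic coordinate

Let `p ≥ 13` be a prime and let `D` not be congruent to a nonzero square modulo `p` (every parameter which
is not exceptional modulo `p` satisfies this). If the orbit of the reduction of a point of `X_D^*(ℤ/p^2)`
contains a point with first coordinate `g + g⁻¹`, where `g` is a primitive root modulo `p`, then the orbit
of the point modulo `p^2` consists of all points of `X_D^*(ℤ/p^2)` which lie above the orbit modulo `p`,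
and it has `p^2` times as many elements. In particular, if the group is transitive on
`X_D^*(ℤ/p)`, then it is transitive on `X_D^*(ℤ/p^2)`, and the number of points is divisible by `p^2`.
-/

set_option autoImplicit false

namespace Pool.Agent.Results.MP_60c97f_nt.MaximalHyperbolic

open Pool.Agent.J6H98.MK

/-- Let `p ≥ 13` be a prime, `D ∈ ℤ/p^2` not congruent to a nonzero square modulo `p`.
(1) If `v ∈ X_D^*(ℤ/p^2)` and the orbit of its reduction contains a point with first coordinate `g + g⁻¹`,
`g` a primitive root modulo `p`, then the orbit of `v` consists of all points of `X_D^*(ℤ/p^2)` above the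
orbit of the reduction, and its cardinality is `p^2` times the cardinality of the orbit modulo `p`.
(2) If the group is transitive on `X_D^*(ℤ/p)`, then it is transitive on `X_D^*(ℤ/p^2)`, whose
cardinality is divisible by `p^2`. -/
theorem result (p : ℕ) [Fact p.Prime] (hp : 13 ≤ p) (D : ZMod (p ^ 2))
    (hD : ∀ a : ZMod p, a ^ 2 = red p D → a = 0) :
    (∀ v ∈ Xs D, (∃ w ∈ MulAction.orbit (AutX (ZMod p)) (red3 p v), ∃ g : ZMod p,
        orderOf g = p - 1 ∧ w.1 = g + g⁻¹) →
      MulAction.orbit (AutX (ZMod (p ^ 2))) v =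
        {u | u ∈ Xs D ∧ red3 p u ∈ MulAction.orbit (AutX (ZMod p)) (red3 p v)} ∧
      Nat.card (MulAction.orbit (AutX (ZMod (p ^ 2))) v) =
        p ^ 2 * Nat.card (MulAction.orbit (AutX (ZMod p)) (red3 p v))) ∧
    ((∀ P ∈ Xs (red p D), ∀ Q ∈ Xs (red p D), Q ∈ MulAction.orbit (AutX (ZMod p)) P) →
      ∀ v ∈ Xs D, MulAction.orbit (AutX (ZMod (p ^ 2))) v = Xs D ∧
        p ^ 2 ∣ Nat.card (MulAction.orbit (AutX (ZMod (p ^ 2))) v)) :=
  ⟨fun v hv hmax => main2 p t_FIB hp D hD v hv hmax,
    fun htr v hv => main3 p t_FIB hp D hD htr v hv⟩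

end Pool.Agent.Results.MP_60c97f_nt.MaximalHyperbolic
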